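import Mathlib

/-! # The mutual preference graph -/

namespace Pool.Agent.Q299.Pref

open Finset

/-- Vertex `i` prefers the edge `{i, j}`: fewer than `k` of the edges at `i` are cheaper than
`{i, j}`. (When the costs are distinct, these are the `k` cheapest edges at `i`.) -/
def Prefers {n : ℕ} (k : ℕ) (C : Sym2 (Fin n) → ℝ) (i j : Fin n) : Prop :=
  (univ.filter fun l : Fin n => l ≠ i ∧ C s(i, l) < C s(i, j)).card < k

/-- The graph which keeps the edges preferred by both of their endpoints. -/
def prefGraph {n : ℕ} (k : ℕ) (C : Sym2 (Fin n) → ℝ) : SimpleGraph (Fin n) where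
  Adj i j := i ≠ j ∧ Prefers k C i j ∧ Prefers k C j i
  symm := ⟨fun _ _ h => ⟨h.1.symm, h.2.2, h.2.1⟩⟩
  loopless := ⟨fun _ h => h.1 rfl⟩

end Pool.Agent.Q299.Pref
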