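import Mathlib
import Pool.Agent.Q299.PW.Transfer
import Pool.Agent.Q299.Pref.Defs

/-! # Deterministic part -/

set_option linter.unusedSectionVars false
set_option linter.unusedVariables false

namespace Pool.Agent.Q299.Pref

open Finset Pool.Agent.Q299.PW

variable {n : ℕ}

/-- The edges from `i` to `R`. -/
def spokes (i : Fin n) (R : Finset (Fin n)) : Finset (Sym2 (Fin n)) := R.image fun r => s(i, r)

lemma card_spokes (i : Fin n) (R : Finset (Fin n)) : (spokes i R).card = R.card := by
  unfold spokes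
  exact card_image_of_injective _ fun a b h => Sym2.congr_right.mp h

lemma cnt_spokes (L : Finset (Fin 3)) (i : Fin n) (R : Finset (Fin n))
    (ω : Sym2 (Fin n) → Fin 3) :
    cnt L (spokes i R) ω = (R.filter fun r => ω s(i, r) ∈ L).card := by
  unfold cnt spokes
  rw [filter_image, card_image_of_injective]
  intro a b h
  exact Sym2.congr_right.mp h

/-- The edges between `S` and its complement. -/
def cut (S : Finset (Fin n)) : Finset (Sym2 (Fin n)) :=
  (S ×ˢ Sᶜ).image fun x => s(x.1, x.2)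

lemma cut_inj (S : Finset (Fin n)) :
    Set.InjOn (fun x : Fin n × Fin n => s(x.1, x.2)) (S ×ˢ Sᶜ : Finset (Fin n × Fin n)) := by
  rintro ⟨a, b⟩ h ⟨a', b'⟩ h' heq
  rw [mem_coe, mem_product, mem_compl] at h h'
  simp only at h h'
  simp only [Sym2.eq_iff] at heq
  rcases heq with ⟨h1, h2⟩ | ⟨h1, h2⟩
  · rw [h1, h2]
  · exfalso
    apply h'.2
    rw [← h1]
    exact h.1

lemma card_cut (S : Finset (Fin n)) : (cut S).card = S.card * (n - S.card) := by
  unfold cut
  rw [card_image_of_injOn (cut_inj S), card_product, card_compl, Fintype.card_fin]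

lemma cnt_cut_le (L : Finset (Fin 3)) (S : Finset (Fin n)) (ω : Sym2 (Fin n) → Fin 3) :
    cnt L (cut S) ω ≤ ∑ v ∈ S, (Sᶜ.filter fun u => ω s(v, u) ∈ L).card := by
  unfold cnt cut
  rw [filter_image]
  refine card_image_le.trans ?_
  rw [card_filter, sum_product]
  refine le_of_eq (sum_congr rfl fun v _ => ?_)
  rw [card_filter]

/-- Number of edges at `i` with level in `L`. -/
def deg (L : Finset (Fin 3)) (ω : Sym2 (Fin n) → Fin 3) (i : Fin n) : ℕ :=
  ((univ.erase i).filter fun r => ω s(i, r) ∈ L).card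

lemma deg_eq (L : Finset (Fin 3)) (ω : Sym2 (Fin n) → Fin 3) (i : Fin n) :
    deg L ω i = cnt L (spokes i (univ.erase i)) ω := by
  rw [cnt_spokes]
  rfl

/-- The levels of the costs. -/
noncomputable def lv (t₁ t₂ : ℝ) (C : Sym2 (Fin n) → ℝ) : Sym2 (Fin n) → Fin 3 :=
  fun e => lev t₁ t₂ (C e)

lemma lv_zero {t₁ t₂ : ℝ} {C : Sym2 (Fin n) → ℝ} {e : Sym2 (Fin n)} :
    lv t₁ t₂ C e = 0 ↔ C e ≤ t₁ := by
  unfold lv lev
  split_ifs <;> simp_all

lemma lv_two {t₁ t₂ : ℝ} (h12 : t₁ < t₂) {C : Sym2 (Fin n) → ℝ} {e : Sym2 (Fin n)} :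
    lv t₁ t₂ C e = 2 ↔ t₂ < C e := by
  unfold lv lev
  split_ifs <;> simp_all
  linarith

lemma prefers_of_deg {k : ℕ} {t₁ t₂ : ℝ} {C : Sym2 (Fin n) → ℝ} {i j : Fin n}
    (h : lv t₁ t₂ C s(i, j) = 0) (hd : deg {0} (lv t₁ t₂ C) i < k) : Prefers k C i j := by
  unfold Prefers
  refine lt_of_le_of_lt (card_le_card fun l hl => ?_) hd
  rw [mem_filter] at hl ⊢
  refine ⟨mem_erase.mpr ⟨hl.2.1, mem_univ _⟩, ?_⟩
  rw [mem_singleton, lv_zero]
  exact hl.2.2.le.trans (lv_zero.mp h)

lemma connected_of {m k : ℕ} (hn : 0 < n) (C : Sym2 (Fin n) → ℝ) (t₁ t₂ : ℝ) (hmk : m ≤ k)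
    (hB1 : ∀ S : Finset (Fin n), S.Nonempty → 2 * S.card ≤ n →
      m * S.card < cnt {0} (cut S) (lv t₁ t₂ C))
    (hB2 : ∀ v, ((univ.erase v).filter fun u => lv t₁ t₂ C s(v, u) = 0 ∧
      k ≤ deg {0} (lv t₁ t₂ C) u).card < m) :
    (prefGraph k C).Connected := by
  classical
  set ω := lv t₁ t₂ C with hω
  -- every vertex of large degree has a good neighbour
  have hgood : ∀ i, k ≤ deg {0} ω i → ∃ j, deg {0} ω j < k ∧ (prefGraph k C).Adj i j := by
    intro i hi
    set G := (univ.erase i).filter fun u => ω s(i, u) = 0 ∧ deg {0} ω u < k with hG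
    have hne : G.Nonempty := by
      rw [← card_pos]
      by_contra hcon
      have h0 : G.card = 0 := by omega
      have h1 : (univ.erase i).filter (fun r => ω s(i, r) ∈ ({0} : Finset (Fin 3))) ⊆
          (univ.erase i).filter (fun u => ω s(i, u) = 0 ∧ k ≤ deg {0} ω u) := by
        intro u hu
        rw [mem_filter, mem_singleton] at hu
        rw [mem_filter]
        refine ⟨hu.1, hu.2, ?_⟩
        by_contra hc
        have : u ∈ G := by
          rw [hG, mem_filter]
          exact ⟨hu.1, hu.2, by omega⟩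
        rw [card_eq_zero] at h0
        rw [h0] at this
        exact absurd this (notMem_empty _)
      have h2 := card_le_card h1
      have h3 := hB2 i
      unfold deg at hi
      omega
    obtain ⟨j, hj, hmin⟩ := exists_min_image G (fun u => C s(i, u)) hne
    rw [hG, mem_filter, mem_erase] at hj
    refine ⟨j, hj.2.2, hj.1.1.symm, ?_, ?_⟩
    · unfold Prefers
      refine lt_of_lt_of_le (lt_of_le_of_lt (card_le_card fun l hl => ?_) (hB2 i)) hmk
      rw [mem_filter] at hl
      have hlow : ω s(i, l) = 0 := by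
        rw [hω, lv_zero]
        have := lv_zero.mp hj.2.1
        linarith [hl.2.2]
      rw [mem_filter]
      refine ⟨mem_erase.mpr ⟨hl.2.1, mem_univ _⟩, hlow, ?_⟩
      by_contra hc
      have hlG : l ∈ G := by
        rw [hG, mem_filter]
        exact ⟨mem_erase.mpr ⟨hl.2.1, mem_univ _⟩, hlow, by omega⟩
      have := hmin l hlG
      linarith [hl.2.2]
    · apply prefers_of_deg (t₁ := t₁) (t₂ := t₂)
      · rw [Sym2.eq_swap]
        exact hj.2.1
      · exact hj.2.2
  -- connectivity
  have hne : Nonempty (Fin n) := ⟨⟨0, hn⟩⟩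
  by_contra hcon
  have hpre : ¬ (prefGraph k C).Preconnected := by
    intro h
    exact hcon ⟨h⟩
  unfold SimpleGraph.Preconnected at hpre
  push Not at hpre
  obtain ⟨a, b, hab⟩ := hpre
  set S := univ.filter fun v => (prefGraph k C).Reachable a v with hS
  have hclosed : ∀ i j, (prefGraph k C).Adj i j → (i ∈ S ↔ j ∈ S) := by
    intro i j hij
    rw [hS, mem_filter, mem_filter]
    simp only [mem_univ, true_and]
    exact ⟨fun h => h.trans hij.reachable, fun h => h.trans hij.symm.reachable⟩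
  have haS : a ∈ S := by rw [hS, mem_filter]; exact ⟨mem_univ _, SimpleGraph.Reachable.refl a⟩
  have hbS : b ∉ S := by rw [hS, mem_filter]; exact fun h => hab h.2
  -- general step
  have key : ∀ T : Finset (Fin n), (∀ i j, (prefGraph k C).Adj i j → (i ∈ T ↔ j ∈ T)) →
      T.Nonempty → 2 * (T.filter fun v => deg {0} ω v < k).card ≤ n → False := by
    intro T hT hTne hcard
    set T₁ := T.filter fun v => deg {0} ω v < k with hT₁
    have hT₁ne : T₁.Nonempty := by
      obtain ⟨i, hi⟩ := hTne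
      by_cases h : deg {0} ω i < k
      · exact ⟨i, mem_filter.mpr ⟨hi, h⟩⟩
      · obtain ⟨j, hj, hadj⟩ := hgood i (by omega)
        exact ⟨j, mem_filter.mpr ⟨(hT i j hadj).mp hi, hj⟩⟩
    have h1 := hB1 T₁ hT₁ne hcard
    have h2 := cnt_cut_le {0} T₁ ω
    have h3 : ∀ v ∈ T₁, (T₁ᶜ.filter fun u => ω s(v, u) ∈ ({0} : Finset (Fin 3))).card ≤ m := by
      intro v hv
      refine (le_of_lt (lt_of_le_of_lt (card_le_card fun u hu => ?_) (hB2 v)))
      rw [mem_filter, mem_compl, mem_singleton] at hu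
      rw [hT₁, mem_filter] at hv hu
      have hvu : u ≠ v := by
        rintro rfl
        exact hu.1 hv
      rw [mem_filter]
      refine ⟨mem_erase.mpr ⟨hvu, mem_univ _⟩, hu.2, ?_⟩
      by_contra hc
      have hc' : deg {0} ω u < k := by omega
      apply hu.1
      refine ⟨?_, hc'⟩
      rw [← hT v u]
      · exact hv.1
      · refine ⟨hvu.symm, prefers_of_deg (t₁ := t₁) (t₂ := t₂) hu.2 hv.2,
          prefers_of_deg (t₁ := t₁) (t₂ := t₂) ?_ hc'⟩
        rw [Sym2.eq_swap]
        exact hu.2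
    have h4 := sum_le_sum h3
    rw [sum_const, smul_eq_mul] at h4
    have h5 : T₁.card * m = m * T₁.card := mul_comm _ _
    omega
  have hdisj : (S.filter fun v => deg {0} ω v < k).card +
      (Sᶜ.filter fun v => deg {0} ω v < k).card ≤ n := by
    have h1 := card_filter_le S fun v => deg {0} ω v < k
    have h2 := card_filter_le Sᶜ fun v => deg {0} ω v < k
    have h3 : S.card + Sᶜ.card = n := by rw [card_add_card_compl, Fintype.card_fin]
    omega
  by_cases hcase : 2 * (S.filter fun v => deg {0} ω v < k).card ≤ n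
  · exact key S hclosed ⟨a, haS⟩ hcase
  · refine key Sᶜ (fun i j hij => ?_) ⟨b, mem_compl.mpr hbS⟩ (by omega)
    rw [mem_compl, mem_compl, hclosed i j hij]

/-- Isolated vertices. -/
lemma not_connected_of {k : ℕ} (hn : 2 ≤ n) (C : Sym2 (Fin n) → ℝ) {t₁ t₂ : ℝ} (h12 : t₁ < t₂)
    (i : Fin n) (hiso : deg {0} (lv t₁ t₂ C) i = 0) (hdeg : k ≤ deg {0, 1} (lv t₁ t₂ C) i)
    (hmid : ∀ j, j ≠ i → lv t₁ t₂ C s(i, j) = 1 →
      k ≤ ((univ.erase j).erase i |>.filter fun r => lv t₁ t₂ C s(j, r) = 0).card) :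
    ¬ (prefGraph k C).Connected := by
  classical
  intro hconn
  have hno : ∀ j, ¬ (prefGraph k C).Adj i j := by
    rintro j ⟨hij, h1, h2⟩
    -- not high
    have hnot2 : lv t₁ t₂ C s(i, j) ≠ 2 := by
      intro h
      rw [lv_two h12] at h
      unfold Prefers at h1
      have h3 : (univ.erase i).filter (fun r => lv t₁ t₂ C s(i, r) ∈ ({0, 1} : Finset (Fin 3))) ⊆
          univ.filter fun l : Fin n => l ≠ i ∧ C s(i, l) < C s(i, j) := by
        intro l hl
        rw [mem_filter, mem_erase] at hl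
        rw [mem_filter]
        refine ⟨mem_univ _, hl.1.1, ?_⟩
        have h4 : lv t₁ t₂ C s(i, l) ≠ 2 := by
          intro h5
          rw [h5] at hl
          have := hl.2
          revert this
          decide
        rw [Ne, lv_two h12, not_lt] at h4
        linarith
      have h4 := card_le_card h3
      unfold deg at hdeg
      omega
    have hnot0 : lv t₁ t₂ C s(i, j) ≠ 0 := by
      intro h
      unfold deg at hiso
      rw [card_eq_zero] at hiso
      have : j ∈ (univ.erase i).filter (fun r => lv t₁ t₂ C s(i, r) ∈ ({0} : Finset (Fin 3))) := by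
        rw [mem_filter, mem_erase, mem_singleton]
        exact ⟨⟨hij.symm, mem_univ _⟩, h⟩
      rw [hiso] at this
      exact absurd this (notMem_empty _)
    have h1' : lv t₁ t₂ C s(i, j) = 1 := by
      have : ∀ x : Fin 3, x ≠ 2 → x ≠ 0 → x = 1 := by decide
      exact this _ hnot2 hnot0
    have h3 := hmid j hij.symm h1'
    unfold Prefers at h2
    have h4 : ((univ.erase j).erase i |>.filter fun r => lv t₁ t₂ C s(j, r) = 0) ⊆
        univ.filter fun l : Fin n => l ≠ j ∧ C s(j, l) < C s(j, i) := by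
      intro l hl
      rw [mem_filter, mem_erase, mem_erase] at hl
      rw [mem_filter]
      refine ⟨mem_univ _, hl.1.2.1, ?_⟩
      have h5 := lv_zero.mp hl.2
      have h6 : ¬ C s(j, i) ≤ t₁ := by
        rw [Sym2.eq_swap, ← lv_zero (t₁ := t₁) (t₂ := t₂)]
        exact hnot0
      linarith [not_le.mp h6]
    have h5 := card_le_card h4
    omega
  obtain ⟨b, hb⟩ : ∃ b : Fin n, b ≠ i := by
    have : Nontrivial (Fin n) := Fin.nontrivial_iff_two_le.mpr hn
    exact exists_ne i
  obtain ⟨p⟩ := hconn.preconnected i b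
  cases p with
  | nil => exact hb rfl
  | cons h _ => exact hno _ h

end Pool.Agent.Q299.Pref
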