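import Mathlib
import Pool.Agent.Q299.Pref.Det

/-! # Probability estimates -/

set_option linter.unusedSectionVars false
set_option linter.unusedVariables false

namespace Pool.Agent.Q299.Pref

open Finset Pool.Agent.Q299.PW

variable {n : ℕ} {p₁ p₂ : ℝ}

lemma sum_zero : ∑ a ∈ ({0} : Finset (Fin 3)), wt3 p₁ p₂ a = p₁ := by simp [wt3]

lemma sum_zero_one : ∑ a ∈ ({0, 1} : Finset (Fin 3)), wt3 p₁ p₂ a = p₂ := by
  rw [sum_pair (by decide)]
  simp [wt3]

lemma sum_ne_zero' : ∑ a, wt3 p₁ p₂ a * (if a = 0 then 0 else 1) = 1 - p₁ := by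
  simp [Fin.sum_univ_three, wt3]

lemma sum_eq_zero'' : ∑ a, wt3 p₁ p₂ a * (if a = 0 then 1 else 0) = p₁ := by
  simp [wt3]

lemma sum_eq_one : ∑ a, wt3 p₁ p₂ a * (if a = 1 then 1 else 0) = p₂ - p₁ := by
  simp [wt3]

lemma sum_exp (x : ℝ) : ∑ a, wt3 p₁ p₂ a * (if a ∈ ({0} : Finset (Fin 3)) then x else 1) =
    1 + p₁ * (x - 1) := by
  rw [sum_w_ite (wt3_sum p₁ p₂), sum_zero]

/-- Union bound over the cuts. -/
lemma prob_B1 (h0 : 0 ≤ p₁) (h1 : p₁ ≤ p₂) (h2 : p₂ ≤ 1) (m : ℕ) {t : ℝ} (ht : 0 ≤ t) :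
    Pr (wt3 p₁ p₂) (fun ω : Sym2 (Fin n) → Fin 3 =>
      ∃ S ∈ (univ.filter fun S : Finset (Fin n) => S.Nonempty ∧ 2 * S.card ≤ n),
        cnt {0} (cut S) ω ≤ m * S.card) ≤
      ∑ S ∈ (univ.filter fun S : Finset (Fin n) => S.Nonempty ∧ 2 * S.card ≤ n),
        Real.exp (t * (m * S.card) - ((S.card * (n - S.card) : ℕ) : ℝ) *
          (p₁ * (1 - Real.exp (-t)))) := by
  refine (Pr_exists_le (wt3_nonneg h0 h1 h2) _ _).trans (sum_le_sum fun S _ => ?_)
  have h3 := Pr_cnt_le (wt3_nonneg h0 h1 h2) (wt3_sum p₁ p₂) {0} (cut S) (t := t)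
    (r := ((m * S.card : ℕ) : ℝ)) ht
  rw [sum_zero, card_cut] at h3
  refine (Pr_mono (wt3_nonneg h0 h1 h2) fun ω h => ?_).trans (h3.trans (le_of_eq ?_))
  · exact_mod_cast h
  · push_cast
    rfl

/-- The product over the edges from `v` to `U` low, and many low edges from `U` to the rest. -/
lemma prob_B2_one (h0 : 0 ≤ p₁) (h1 : p₁ ≤ p₂) (h2 : p₂ ≤ 1) (m k : ℕ) {t : ℝ} (ht : 0 ≤ t)
    (v : Fin n) (U : Finset (Fin n)) (hU : U ⊆ univ.erase v) (hUm : U.card = m) :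
    Pr (wt3 p₁ p₂) (fun ω : Sym2 (Fin n) → Fin 3 =>
      (∀ u ∈ U, ω s(v, u) = 0) ∧ ∀ u ∈ U, k ≤ deg {0} ω u) ≤
      p₁ ^ m * Real.exp (m * (n * (p₁ * (Real.exp t - 1)) - t * ((k : ℝ) - m))) := by
  classical
  set R : Finset (Fin n) := univ \ (insert v U) with hR
  set D₁ := spokes v U with hD₁
  set D₂ : Finset (Sym2 (Fin n)) := (U ×ˢ R).image fun x => s(x.1, x.2) with hD₂
  have hvU : v ∉ U := fun h => (mem_erase.mp (hU h)).1 rfl
  have hinj : Set.InjOn (fun x : Fin n × Fin n => s(x.1, x.2)) (U ×ˢ R : Finset _) := by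
    rintro ⟨a, b⟩ h ⟨a', b'⟩ h' heq
    rw [mem_coe, mem_product, hR, mem_sdiff, mem_insert] at h h'
    simp only at h h'
    simp only [Sym2.eq_iff] at heq
    rcases heq with ⟨h1, h2⟩ | ⟨h1, h2⟩
    · rw [h1, h2]
    · exfalso
      apply h'.2.2
      right
      rw [← h1]
      exact h.1
  have hcardD₂ : (D₂.card : ℝ) ≤ m * n := by
    rw [hD₂, card_image_of_injOn hinj, card_product, hUm]
    have : R.card ≤ n := by
      have := card_le_univ R
      rwa [Fintype.card_fin] at this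
    push_cast
    exact mul_le_mul_of_nonneg_left (by exact_mod_cast this) (Nat.cast_nonneg _)
  have hdisj : Disjoint D₁ D₂ := by
    rw [disjoint_left]
    intro e he he'
    rw [hD₁, spokes, mem_image] at he
    rw [hD₂, mem_image] at he'
    obtain ⟨u, hu, rfl⟩ := he
    obtain ⟨⟨a, b⟩, hab, heq⟩ := he'
    rw [mem_product, hR, mem_sdiff, mem_insert] at hab
    simp only at hab
    simp only [Sym2.eq_iff] at heq
    rcases heq with ⟨h1, h2⟩ | ⟨h1, h2⟩
    · exact hvU (h1 ▸ hab.1)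
    · exact hab.2.2 (Or.inl h2)
  have hcnt : ∀ ω : Sym2 (Fin n) → Fin 3, (∀ u ∈ U, k ≤ deg {0} ω u) →
      (m : ℝ) * ((k : ℝ) - m) ≤ cnt {0} D₂ ω := by
    intro ω h
    have h3 : cnt {0} D₂ ω = ∑ u ∈ U, (R.filter fun r => ω s(u, r) ∈ ({0} : Finset (Fin 3))).card := by
      unfold cnt
      rw [hD₂, filter_image, card_image_of_injOn (hinj.mono (by
        intro x hx
        rw [mem_coe, mem_filter] at hx
        exact mem_coe.mpr hx.1)), card_filter, sum_product]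
      refine sum_congr rfl fun u _ => ?_
      rw [card_filter]
    have h4 : ∀ u ∈ U, (k : ℝ) - m ≤
        ((R.filter fun r => ω s(u, r) ∈ ({0} : Finset (Fin 3))).card : ℝ) := by
      intro u hu
      have h5 := h u hu
      unfold deg at h5
      have h6 : (univ.erase u).filter (fun r => ω s(u, r) ∈ ({0} : Finset (Fin 3))) ⊆
          (R.filter fun r => ω s(u, r) ∈ ({0} : Finset (Fin 3))) ∪ (insert v U).erase u := by
        intro r hr
        rw [mem_filter, mem_erase] at hr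
        rw [mem_union, mem_filter, hR, mem_sdiff, mem_erase]
        by_cases hc : r ∈ insert v U
        · right
          exact ⟨hr.1.1, hc⟩
        · left
          exact ⟨⟨mem_univ _, hc⟩, hr.2⟩
      have h7 := (card_le_card h6).trans (card_union_le _ _)
      have h8 : ((insert v U).erase u).card = m := by
        rw [card_erase_of_mem (mem_insert_of_mem hu), card_insert_of_notMem hvU, hUm]
        rfl
      rw [h8] at h7
      have h9 : (k : ℝ) ≤ ((R.filter fun r => ω s(u, r) ∈ ({0} : Finset (Fin 3))).card : ℝ) + m := by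
        exact_mod_cast h5.trans h7
      linarith
    rw [h3]
    push_cast
    have h5 := sum_le_sum h4
    rw [sum_const, nsmul_eq_mul, hUm] at h5
    exact h5
  have hstep : Pr (wt3 p₁ p₂) (fun ω : Sym2 (Fin n) → Fin 3 =>
      (∀ u ∈ U, ω s(v, u) = 0) ∧ ∀ u ∈ U, k ≤ deg {0} ω u) ≤
      Ex (wt3 p₁ p₂) (fun ω => Real.exp (-(t * (m * ((k : ℝ) - m)))) *
        ((∏ e ∈ D₁, (if ω e = 0 then (1 : ℝ) else 0)) *
        (∏ e ∈ D₂, (if ω e ∈ ({0} : Finset (Fin 3)) then Real.exp t else 1)) *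
          ∏ e ∈ (∅ : Finset (Sym2 (Fin n))), (1 : ℝ))) := by
    refine Pr_le_Ex (wt3_nonneg h0 h1 h2) (fun ω => ?_) fun ω h => ?_
    · refine mul_nonneg (Real.exp_pos _).le (mul_nonneg (mul_nonneg ?_ ?_) ?_)
      · exact prod_nonneg fun e _ => by split_ifs <;> norm_num
      · exact prod_nonneg fun e _ => by split_ifs <;> positivity
      · simp
    · have h3 : ∏ e ∈ D₁, (if ω e = 0 then (1 : ℝ) else 0) = 1 := by
        refine prod_eq_one fun e he => ?_
        rw [hD₁, spokes, mem_image] at he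
        obtain ⟨u, hu, rfl⟩ := he
        rw [if_pos (h.1 u hu)]
      rw [h3, prod_empty, mul_one, one_mul, ← exp_cnt, ← Real.exp_add]
      apply Real.one_le_exp
      have := mul_le_mul_of_nonneg_left (hcnt ω h.2) ht
      linarith
  refine hstep.trans ?_
  rw [Ex_smul, Ex_prod_three (wt3_sum p₁ p₂) hdisj (disjoint_empty_right _)
    (disjoint_empty_right _) (fun a => if a = 0 then 1 else 0)
    (fun a => if a ∈ ({0} : Finset (Fin 3)) then Real.exp t else 1) (fun _ => 1)]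
  rw [card_empty, pow_zero, mul_one, sum_eq_zero'', sum_exp, hD₁, card_spokes, hUm]
  have hb : (1 + p₁ * (Real.exp t - 1)) ^ D₂.card ≤
      Real.exp (m * n * (p₁ * (Real.exp t - 1))) := by
    have h3 := base_pow_le (wt3_nonneg h0 h1 h2) (wt3_sum p₁ p₂) {0} (Real.exp_pos t).le D₂.card
    rw [sum_zero] at h3
    refine h3.trans (Real.exp_le_exp.mpr ?_)
    refine mul_le_mul_of_nonneg_right hcardD₂ (mul_nonneg h0 ?_)
    have := Real.one_le_exp ht
    linarith
  calc Real.exp (-(t * (m * ((k : ℝ) - m)))) * (p₁ ^ m * (1 + p₁ * (Real.exp t - 1)) ^ D₂.card)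
      ≤ Real.exp (-(t * (m * ((k : ℝ) - m)))) *
        (p₁ ^ m * Real.exp (m * n * (p₁ * (Real.exp t - 1)))) := by
        refine mul_le_mul_of_nonneg_left ?_ (Real.exp_pos _).le
        exact mul_le_mul_of_nonneg_left hb (pow_nonneg h0 _)
    _ = p₁ ^ m * (Real.exp (m * n * (p₁ * (Real.exp t - 1))) *
        Real.exp (-(t * (m * ((k : ℝ) - m))))) := by ring
    _ = _ := by
        rw [← Real.exp_add]
        congr 2
        ring

lemma prob_B2 (h0 : 0 ≤ p₁) (h1 : p₁ ≤ p₂) (h2 : p₂ ≤ 1) (m k : ℕ) {t : ℝ} (ht : 0 ≤ t) :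
    Pr (wt3 p₁ p₂) (fun ω : Sym2 (Fin n) → Fin 3 =>
      ∃ v ∈ (univ : Finset (Fin n)), m ≤ ((univ.erase v).filter fun u => ω s(v, u) = 0 ∧
        k ≤ deg {0} ω u).card) ≤
      n * (n * p₁ * Real.exp (n * (p₁ * (Real.exp t - 1)) - t * ((k : ℝ) - m))) ^ m := by
  classical
  refine (Pr_exists_le (wt3_nonneg h0 h1 h2) _ _).trans ?_
  have h3 : ∀ v ∈ (univ : Finset (Fin n)), Pr (wt3 p₁ p₂) (fun ω : Sym2 (Fin n) → Fin 3 =>
      m ≤ ((univ.erase v).filter fun u => ω s(v, u) = 0 ∧ k ≤ deg {0} ω u).card) ≤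
      (n * p₁ * Real.exp (n * (p₁ * (Real.exp t - 1)) - t * ((k : ℝ) - m))) ^ m := by
    intro v _
    have h4 : Pr (wt3 p₁ p₂) (fun ω : Sym2 (Fin n) → Fin 3 =>
        m ≤ ((univ.erase v).filter fun u => ω s(v, u) = 0 ∧ k ≤ deg {0} ω u).card) ≤
        Pr (wt3 p₁ p₂) (fun ω : Sym2 (Fin n) → Fin 3 => ∃ U ∈ powersetCard m (univ.erase v),
          (∀ u ∈ U, ω s(v, u) = 0) ∧ ∀ u ∈ U, k ≤ deg {0} ω u) := by
      refine Pr_mono (wt3_nonneg h0 h1 h2) fun ω h => ?_
      obtain ⟨U, hU, hUc⟩ := exists_subset_card_eq h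
      refine ⟨U, ?_, fun u hu => (mem_filter.mp (hU hu)).2.1, fun u hu => (mem_filter.mp (hU hu)).2.2⟩
      rw [mem_powersetCard]
      exact ⟨hU.trans (filter_subset _ _), hUc⟩
    refine h4.trans ((Pr_exists_le (wt3_nonneg h0 h1 h2) _ _).trans ?_)
    have h5 : ∀ U ∈ powersetCard m (univ.erase v), Pr (wt3 p₁ p₂)
        (fun ω : Sym2 (Fin n) → Fin 3 => (∀ u ∈ U, ω s(v, u) = 0) ∧ ∀ u ∈ U, k ≤ deg {0} ω u) ≤
        p₁ ^ m * Real.exp (m * (n * (p₁ * (Real.exp t - 1)) - t * ((k : ℝ) - m))) := by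
      intro U hU
      rw [mem_powersetCard] at hU
      exact prob_B2_one h0 h1 h2 m k ht v U hU.1 hU.2
    refine (sum_le_sum h5).trans ?_
    rw [sum_const, nsmul_eq_mul, card_powersetCard]
    have h6 : (((univ.erase v).card.choose m : ℕ) : ℝ) ≤ (n : ℝ) ^ m := by
      have h7 : (univ.erase v).card.choose m ≤ n ^ m := by
        refine (Nat.choose_le_pow _ _).trans (Nat.pow_le_pow_left ?_ m)
        have := card_le_univ (univ.erase v)
        rwa [Fintype.card_fin] at this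
      exact_mod_cast h7
    have h8 : 0 ≤ p₁ ^ m * Real.exp (m * (n * (p₁ * (Real.exp t - 1)) - t * ((k : ℝ) - m))) :=
      mul_nonneg (pow_nonneg h0 _) (Real.exp_pos _).le
    refine (mul_le_mul_of_nonneg_right h6 h8).trans (le_of_eq ?_)
    rw [mul_pow, mul_pow, ← Real.exp_nat_mul]
    ring
  refine (sum_le_sum h3).trans (le_of_eq ?_)
  rw [sum_const, nsmul_eq_mul, card_univ, Fintype.card_fin]

end Pool.Agent.Q299.Pref
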