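import Mathlib
import Pool.Agent.Q299.Pref.Prob

/-! # Probability estimates: isolated vertices -/

set_option linter.unusedSectionVars false
set_option linter.unusedVariables false

namespace Pool.Agent.Q299.Pref

open Finset Pool.Agent.Q299.PW

variable {n : ℕ} {p₁ p₂ : ℝ}

/-- The edges at `i`. -/
def star (i : Fin n) : Finset (Sym2 (Fin n)) := spokes i (univ.erase i)

/-- The indicator of a value different from zero. -/
noncomputable def nz (a : Fin 3) : ℝ := if a = 0 then 0 else 1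

lemma nz_nonneg (a : Fin 3) : 0 ≤ nz a := by unfold nz; split_ifs <;> norm_num

lemma nz_le_one (a : Fin 3) : nz a ≤ 1 := by unfold nz; split_ifs <;> norm_num

lemma card_star (i : Fin n) : (star i).card = n - 1 := by
  unfold star
  rw [card_spokes, card_erase_of_mem (mem_univ _), card_univ, Fintype.card_fin]

lemma iso_eq (ω : Sym2 (Fin n) → Fin 3) (i : Fin n) :
    (if deg {0} ω i = 0 then (1 : ℝ) else 0) = ∏ e ∈ star i, nz (ω e) := by
  by_cases h : deg {0} ω i = 0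
  · rw [if_pos h]
    symm
    refine prod_eq_one fun e he => ?_
    unfold star spokes at he
    rw [mem_image] at he
    obtain ⟨r, hr, rfl⟩ := he
    unfold nz
    rw [if_neg]
    intro h0
    unfold deg at h
    rw [card_eq_zero, filter_eq_empty_iff] at h
    exact h hr (mem_singleton.mpr h0)
  · rw [if_neg h]
    symm
    unfold deg at h
    rw [card_eq_zero, filter_eq_empty_iff] at h
    push Not at h
    obtain ⟨r, hr, h0⟩ := h
    refine prod_eq_zero (i := s(i, r)) ?_ ?_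
    · unfold star spokes
      exact mem_image_of_mem _ hr
    · unfold nz
      rw [if_pos (mem_singleton.mp h0)]

lemma Ex_prod_nz (D : Finset (Sym2 (Fin n))) :
    Ex (wt3 p₁ p₂) (fun ω => ∏ e ∈ D, nz (ω e)) = (1 - p₁) ^ D.card := by
  rw [Ex_prod_on (wt3_sum p₁ p₂) D (fun _ a => nz a), prod_const]
  congr 1
  exact sum_ne_zero'

/-- Number of isolated vertices. -/
noncomputable def X (ω : Sym2 (Fin n) → Fin 3) : ℝ := ∑ i, if deg {0} ω i = 0 then (1 : ℝ) else 0

lemma Ex_X : Ex (wt3 p₁ p₂) (X (n := n)) = n * (1 - p₁) ^ (n - 1) := by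
  have h : (X : (Sym2 (Fin n) → Fin 3) → ℝ) = fun ω => ∑ i, ∏ e ∈ star i, nz (ω e) := by
    funext ω
    unfold X
    exact sum_congr rfl fun i _ => iso_eq ω i
  rw [h, Ex_sum]
  simp_rw [Ex_prod_nz, card_star]
  rw [sum_const, nsmul_eq_mul, card_univ, Fintype.card_fin]

lemma card_star_union {i j : Fin n} (hij : i ≠ j) (hn : 2 ≤ n) :
    2 * n - 3 ≤ (star i ∪ star j).card := by
  have h1 := card_union_add_card_inter (star i) (star j)
  have h2 : (star i ∩ star j).card ≤ 1 := by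
    rw [card_le_one]
    have key : ∀ e ∈ star i ∩ star j, e = s(i, j) := by
      intro e he
      rw [mem_inter] at he
      unfold star spokes at he
      rw [mem_image, mem_image] at he
      obtain ⟨⟨r, hr, rfl⟩, ⟨r', hr', heq⟩⟩ := he
      rw [Sym2.eq_iff] at heq
      rcases heq with ⟨h1, h2⟩ | ⟨h1, h2⟩
      · exact absurd h1.symm hij
      · rw [h1]
    intro e he e' he'
    rw [key e he, key e' he']
  rw [card_star, card_star] at h1
  omega

lemma Ex_X_sq (h0 : 0 ≤ p₁) (h1 : p₁ ≤ p₂) (h2 : p₂ ≤ 1) (hn : 2 ≤ n) :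
    Ex (wt3 p₁ p₂) (fun ω => X (n := n) ω ^ 2) ≤
      n * (1 - p₁) ^ (n - 1) + (n : ℝ) ^ 2 * (1 - p₁) ^ (2 * n - 3) := by
  have hq0 : 0 ≤ 1 - p₁ := by linarith
  have hq1 : 1 - p₁ ≤ 1 := by linarith
  have h : (fun ω => X (n := n) ω ^ 2) = fun ω => ∑ i, ∑ j,
      (∏ e ∈ star i, nz (ω e)) * ∏ e ∈ star j, nz (ω e) := by
    funext ω
    unfold X
    rw [sq, sum_mul_sum]
    refine sum_congr rfl fun i _ => sum_congr rfl fun j _ => ?_
    rw [iso_eq, iso_eq]
  rw [h, Ex_sum]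
  have h3 : ∀ i ∈ (univ : Finset (Fin n)), Ex (wt3 p₁ p₂) (fun ω => ∑ j,
      (∏ e ∈ star i, nz (ω e)) * ∏ e ∈ star j, nz (ω e)) ≤
      (1 - p₁) ^ (n - 1) + n * (1 - p₁) ^ (2 * n - 3) := by
    intro i _
    rw [Ex_sum, ← add_sum_erase univ _ (mem_univ i)]
    refine add_le_add ?_ ?_
    · refine (Ex_mono (wt3_nonneg h0 h1 h2) (g := fun ω => ∏ e ∈ star i, nz (ω e))
        fun ω => ?_).trans (le_of_eq ?_)
      · have ha : 0 ≤ ∏ e ∈ star i, nz (ω e) := prod_nonneg fun e _ => nz_nonneg _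
        have hb : ∏ e ∈ star i, nz (ω e) ≤ 1 := prod_le_one (fun e _ => nz_nonneg _)
          fun e _ => nz_le_one _
        nlinarith
      · rw [Ex_prod_nz, card_star]
    · have h4 : ∀ j ∈ univ.erase i, Ex (wt3 p₁ p₂) (fun ω =>
          (∏ e ∈ star i, nz (ω e)) * ∏ e ∈ star j, nz (ω e)) ≤ (1 - p₁) ^ (2 * n - 3) := by
        intro j hj
        refine (Ex_mono (wt3_nonneg h0 h1 h2) (g := fun ω => ∏ e ∈ star i ∪ star j, nz (ω e))
          fun ω => ?_).trans ?_
        · rw [← prod_union_inter]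
          have ha : 0 ≤ ∏ e ∈ star i ∪ star j, nz (ω e) := prod_nonneg fun e _ => nz_nonneg _
          have hb : ∏ e ∈ star i ∩ star j, nz (ω e) ≤ 1 := prod_le_one (fun e _ => nz_nonneg _)
            fun e _ => nz_le_one _
          have hc : 0 ≤ ∏ e ∈ star i ∩ star j, nz (ω e) := prod_nonneg fun e _ => nz_nonneg _
          nlinarith
        · rw [Ex_prod_nz]
          exact pow_le_pow_of_le_one hq0 hq1 (card_star_union (ne_of_mem_erase hj).symm hn)
      refine (sum_le_sum h4).trans ?_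
      rw [sum_const, nsmul_eq_mul]
      refine mul_le_mul_of_nonneg_right ?_ (pow_nonneg hq0 _)
      have := card_le_univ (univ.erase i)
      rw [Fintype.card_fin] at this
      exact_mod_cast this
  refine (sum_le_sum h3).trans (le_of_eq ?_)
  rw [sum_const, nsmul_eq_mul, card_univ, Fintype.card_fin]
  ring

lemma prob_X (h0 : 0 ≤ p₁) (h1 : p₁ ≤ p₂) (h2 : p₂ ≤ 1) (hp : p₁ < 1) (hn : 2 ≤ n) :
    Pr (wt3 p₁ p₂) (fun ω => X (n := n) ω ≤ n * (1 - p₁) ^ (n - 1) / 2) ≤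
      4 * (1 / (n * (1 - p₁) ^ (n - 1)) + p₁ / (1 - p₁)) := by
  have hq0 : 0 < 1 - p₁ := by linarith
  have hn' : (0 : ℝ) < n := by
    have : 0 < n := by omega
    exact_mod_cast this
  have h3 := Pr_le_half (wt3_nonneg h0 h1 h2) (wt3_sum p₁ p₂) (X (n := n))
    (μ := n * (1 - p₁) ^ (n - 1)) (by positivity) Ex_X
  refine h3.trans ?_
  refine mul_le_mul_of_nonneg_left ?_ (by norm_num)
  have h4 := Ex_X_sq (n := n) h0 h1 h2 hn
  have h5 : (1 - p₁) ^ (2 * n - 3) = ((1 - p₁) ^ (n - 1)) ^ 2 / (1 - p₁) := by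
    rw [← pow_mul, eq_div_iff hq0.ne', ← pow_succ]
    congr 1
    omega
  rw [h5] at h4
  set x := (1 - p₁) ^ (n - 1) with hx
  have hxpos : 0 < x := by positivity
  have h6 : Ex (wt3 p₁ p₂) (fun ω => X (n := n) ω ^ 2) / (n * x) ^ 2 ≤
      (n * x + (n : ℝ) ^ 2 * (x ^ 2 / (1 - p₁))) / (n * x) ^ 2 :=
    div_le_div_of_nonneg_right h4 (by positivity)
  have h7 : (n * x + (n : ℝ) ^ 2 * (x ^ 2 / (1 - p₁))) / (n * x) ^ 2 =
      1 / (n * x) + p₁ / (1 - p₁) + 1 := by
    field_simp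
    ring
  linarith

/-- Bad pairs. -/
def Bad (k : ℕ) (ω : Sym2 (Fin n) → Fin 3) (i j : Fin n) : Prop :=
  deg {0} ω i = 0 ∧ ω s(i, j) = 1 ∧
    ((univ.erase j).erase i |>.filter fun r => ω s(j, r) = 0).card < k

lemma prob_bad (h0 : 0 ≤ p₁) (h1 : p₁ ≤ p₂) (h2 : p₂ ≤ 1) (k : ℕ) {t : ℝ} (ht : 0 ≤ t)
    {i j : Fin n} (hij : i ≠ j) :
    Pr (wt3 p₁ p₂) (fun ω => Bad k ω i j) ≤
      (1 - p₁) ^ (n - 2) * (p₂ - p₁) *
        Real.exp (t * k - ((n - 2 : ℕ) : ℝ) * (p₁ * (1 - Real.exp (-t)))) := by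
  classical
  set R := (univ.erase j).erase i with hR
  have hR' : (univ.erase i).erase j = R := erase_right_comm
  have hRcard : R.card = n - 2 := by
    rw [hR, card_erase_of_mem (mem_erase.mpr ⟨hij, mem_univ _⟩), card_erase_of_mem (mem_univ _),
      card_univ, Fintype.card_fin]
    rfl
  have hRi : i ∉ R := by rw [hR]; exact notMem_erase _ _
  have hRj : j ∉ R := by rw [← hR']; exact notMem_erase _ _
  have d12 : Disjoint (spokes i R) {s(i, j)} := by
    rw [disjoint_singleton_right]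
    unfold spokes
    rw [mem_image]
    rintro ⟨r, hr, heq⟩
    rw [Sym2.congr_right] at heq
    exact hRj (heq ▸ hr)
  have d23 : Disjoint {s(i, j)} (spokes j R) := by
    rw [disjoint_singleton_left]
    unfold spokes
    rw [mem_image]
    rintro ⟨r, hr, heq⟩
    rw [Sym2.eq_iff] at heq
    rcases heq with ⟨h3, h4⟩ | ⟨h3, h4⟩
    · exact hij h3.symm
    · exact hRi (h4 ▸ hr)
  have d13 : Disjoint (spokes i R) (spokes j R) := by
    rw [disjoint_left]
    intro e he he'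
    unfold spokes at he he'
    rw [mem_image] at he he'
    obtain ⟨r, hr, rfl⟩ := he
    obtain ⟨r', hr', heq⟩ := he'
    rw [Sym2.eq_iff] at heq
    rcases heq with ⟨h3, h4⟩ | ⟨h3, h4⟩
    · exact hij h3.symm
    · exact hRi (h4 ▸ hr')
  have hstep : Pr (wt3 p₁ p₂) (fun ω => Bad k ω i j) ≤
      Ex (wt3 p₁ p₂) (fun ω => Real.exp (t * k) * ((∏ e ∈ spokes i R, nz (ω e)) *
        (∏ e ∈ ({s(i, j)} : Finset (Sym2 (Fin n))), (if ω e = 1 then (1 : ℝ) else 0)) *
        ∏ e ∈ spokes j R, (if ω e ∈ ({0} : Finset (Fin 3)) then Real.exp (-t) else 1))) := by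
    refine Pr_le_Ex (wt3_nonneg h0 h1 h2) (fun ω => ?_) fun ω h => ?_
    · refine mul_nonneg (Real.exp_pos _).le (mul_nonneg (mul_nonneg ?_ ?_) ?_)
      · exact prod_nonneg fun e _ => nz_nonneg _
      · exact prod_nonneg fun e _ => by split_ifs <;> norm_num
      · exact prod_nonneg fun e _ => by split_ifs <;> positivity
    · obtain ⟨ha, hb, hc⟩ := h
      have h3 : ∏ e ∈ spokes i R, nz (ω e) = 1 := by
        refine prod_eq_one fun e he => ?_
        unfold spokes at he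
        rw [mem_image] at he
        obtain ⟨r, hr, rfl⟩ := he
        unfold nz
        rw [if_neg]
        intro h4
        unfold deg at ha
        rw [card_eq_zero, filter_eq_empty_iff] at ha
        refine ha (x := r) ?_ (mem_singleton.mpr h4)
        rw [← hR'] at hr
        exact mem_of_mem_erase hr
      rw [h3, prod_singleton, if_pos hb, one_mul, one_mul, ← exp_cnt, ← Real.exp_add]
      apply Real.one_le_exp
      have h5 : (cnt {0} (spokes j R) ω : ℝ) ≤ k := by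
        rw [cnt_spokes]
        simp_rw [mem_singleton]
        exact_mod_cast hc.le
      nlinarith
  refine hstep.trans ?_
  rw [Ex_smul, Ex_prod_three (wt3_sum p₁ p₂) d12 d13 d23 nz (fun a => if a = 1 then 1 else 0)
    (fun a => if a ∈ ({0} : Finset (Fin 3)) then Real.exp (-t) else 1)]
  have e1 : ∑ a, wt3 p₁ p₂ a * nz a = 1 - p₁ := sum_ne_zero'
  rw [e1, sum_eq_one, sum_exp, card_spokes, card_spokes, hRcard, card_singleton, pow_one]
  have hb : (1 + p₁ * (Real.exp (-t) - 1)) ^ (n - 2) ≤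
      Real.exp (((n - 2 : ℕ) : ℝ) * (p₁ * (Real.exp (-t) - 1))) := by
    have h3 := base_pow_le (wt3_nonneg h0 h1 h2) (wt3_sum p₁ p₂) {0} (Real.exp_pos (-t)).le (n - 2)
    rwa [sum_zero] at h3
  have hpos : 0 ≤ (1 - p₁) ^ (n - 2) * (p₂ - p₁) :=
    mul_nonneg (pow_nonneg (by linarith) _) (by linarith)
  calc Real.exp (t * k) * ((1 - p₁) ^ (n - 2) * (p₂ - p₁) *
        (1 + p₁ * (Real.exp (-t) - 1)) ^ (n - 2))
      ≤ Real.exp (t * k) * ((1 - p₁) ^ (n - 2) * (p₂ - p₁) *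
        Real.exp (((n - 2 : ℕ) : ℝ) * (p₁ * (Real.exp (-t) - 1)))) :=
        mul_le_mul_of_nonneg_left (mul_le_mul_of_nonneg_left hb hpos) (Real.exp_pos _).le
    _ = (1 - p₁) ^ (n - 2) * (p₂ - p₁) * (Real.exp (t * k) *
        Real.exp (((n - 2 : ℕ) : ℝ) * (p₁ * (Real.exp (-t) - 1)))) := by ring
    _ = _ := by
        rw [← Real.exp_add]
        congr 2
        ring

/-- Number of bad pairs. -/
noncomputable def Y (k : ℕ) (ω : Sym2 (Fin n) → Fin 3) : ℝ :=
  open Classical in ∑ i, ∑ j ∈ univ.erase i, if Bad k ω i j then (1 : ℝ) else 0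

lemma Ex_Y (h0 : 0 ≤ p₁) (h1 : p₁ ≤ p₂) (h2 : p₂ ≤ 1) (k : ℕ) {t : ℝ} (ht : 0 ≤ t) :
    Ex (wt3 p₁ p₂) (Y (n := n) k) ≤ (n : ℝ) ^ 2 * ((1 - p₁) ^ (n - 2) * (p₂ - p₁) *
        Real.exp (t * k - ((n - 2 : ℕ) : ℝ) * (p₁ * (1 - Real.exp (-t))))) := by
  classical
  have h : (Y k : (Sym2 (Fin n) → Fin 3) → ℝ) =
      fun ω => ∑ i, ∑ j ∈ univ.erase i, if Bad k ω i j then (1 : ℝ) else 0 := by
    funext ω
    unfold Y
    refine sum_congr rfl fun i _ => sum_congr rfl fun j _ => ?_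
    congr
  have hpos : 0 ≤ (1 - p₁) ^ (n - 2) * (p₂ - p₁) *
        Real.exp (t * k - ((n - 2 : ℕ) : ℝ) * (p₁ * (1 - Real.exp (-t)))) :=
    mul_nonneg (mul_nonneg (pow_nonneg (by linarith) _) (by linarith)) (Real.exp_pos _).le
  rw [h, Ex_sum]
  have h3 : ∀ i ∈ (univ : Finset (Fin n)), Ex (wt3 p₁ p₂) (fun ω =>
      ∑ j ∈ univ.erase i, if Bad k ω i j then (1 : ℝ) else 0) ≤ n * ((1 - p₁) ^ (n - 2) *
        (p₂ - p₁) * Real.exp (t * k - ((n - 2 : ℕ) : ℝ) * (p₁ * (1 - Real.exp (-t))))) := by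
    intro i _
    rw [Ex_sum]
    have h4 : ∀ j ∈ univ.erase i, Ex (wt3 p₁ p₂) (fun ω : Sym2 (Fin n) → Fin 3 =>
        if Bad k ω i j then (1 : ℝ) else 0) ≤ (1 - p₁) ^ (n - 2) *
        (p₂ - p₁) * Real.exp (t * k - ((n - 2 : ℕ) : ℝ) * (p₁ * (1 - Real.exp (-t)))) := by
      intro j hj
      refine le_trans (le_of_eq ?_) (prob_bad h0 h1 h2 k ht (ne_of_mem_erase hj).symm)
      unfold Pr
      congr
    refine (sum_le_sum h4).trans ?_
    rw [sum_const, nsmul_eq_mul]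
    refine mul_le_mul_of_nonneg_right ?_ hpos
    have := card_le_univ (univ.erase i)
    rw [Fintype.card_fin] at this
    exact_mod_cast this
  refine (sum_le_sum h3).trans (le_of_eq ?_)
  rw [sum_const, nsmul_eq_mul, card_univ, Fintype.card_fin]
  ring

/-- The good event of the lower part. -/
def Good (k : ℕ) (ω : Sym2 (Fin n) → Fin 3) : Prop :=
  ∃ i, deg {0} ω i = 0 ∧ k ≤ deg {0, 1} ω i ∧ ∀ j, j ≠ i → ω s(i, j) = 1 →
      k ≤ ((univ.erase j).erase i |>.filter fun r => ω s(j, r) = 0).card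

lemma prob_not_good (h0 : 0 < p₁) (h1 : p₁ < p₂) (h2 : p₂ < 1) (hn : 2 ≤ n) (k : ℕ) {t u : ℝ}
    (ht : 0 ≤ t) (hu : 0 ≤ u) :
    Pr (wt3 p₁ p₂) (fun ω : Sym2 (Fin n) → Fin 3 => ¬ Good k ω) ≤
      4 * (1 / (n * (1 - p₁) ^ (n - 1)) + p₁ / (1 - p₁)) +
      2 * n * (p₂ - p₁) / (1 - p₁) *
        Real.exp (t * k - ((n - 2 : ℕ) : ℝ) * (p₁ * (1 - Real.exp (-t)))) +
      n * Real.exp (u * k - ((n - 1 : ℕ) : ℝ) * (p₂ * (1 - Real.exp (-u)))) := by
  classical
  have hp : p₁ < 1 := h1.trans h2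
  have hq0 : 0 < 1 - p₁ := by linarith
  have hn' : (0 : ℝ) < n := by
    have : 0 < n := by omega
    exact_mod_cast this
  have hw := wt3_nonneg h0.le h1.le h2.le
  set x := (n : ℝ) * (1 - p₁) ^ (n - 1) with hx
  have hxpos : 0 < x := by positivity
  have hsub : ∀ ω : Sym2 (Fin n) → Fin 3, ¬ Good k ω →
      ((X ω ≤ x / 2) ∨ (x / 2 ≤ Y k ω)) ∨ ∃ i ∈ (univ : Finset (Fin n)),
        (cnt {0, 1} (star i) ω : ℝ) ≤ k := by
    intro ω h
    by_contra hcon
    push Not at hcon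
    obtain ⟨⟨ha, hb⟩, hc⟩ := hcon
    apply h
    by_contra hno
    unfold Good at hno
    push Not at hno
    have hXY : X ω ≤ Y k ω := by
      unfold X Y
      refine sum_le_sum fun i _ => ?_
      split_ifs with hi
      · have hd : k ≤ deg {0, 1} ω i := by
          have := hc i (mem_univ _)
          have h3 : (k : ℝ) < (deg {0, 1} ω i : ℝ) := by
            rw [deg_eq]
            exact this
          exact_mod_cast h3.le
        obtain ⟨j, hj, hj1, hj2⟩ := hno i hi hd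
        have h4 : (if Bad k ω i j then (1 : ℝ) else 0) ≤
            ∑ j ∈ univ.erase i, if Bad k ω i j then (1 : ℝ) else 0 :=
          single_le_sum (f := fun j => if Bad k ω i j then (1 : ℝ) else 0)
            (fun y _ => by split_ifs <;> norm_num) (mem_erase.mpr ⟨hj, mem_univ _⟩)
        rw [if_pos (show Bad k ω i j from ⟨hi, hj1, hj2⟩)] at h4
        convert h4
      · exact sum_nonneg fun y _ => by split_ifs <;> norm_num
    linarith
  refine (Pr_mono hw hsub).trans ((Pr_or_le hw _ _).trans (add_le_add ?_ ?_))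
  · refine (Pr_or_le hw _ _).trans (add_le_add (prob_X h0.le h1.le h2.le hp hn) ?_)
    have hY := Ex_Y (n := n) h0.le h1.le h2.le k ht
    have hYnn : ∀ ω : Sym2 (Fin n) → Fin 3, 0 ≤ Y k ω := by
      intro ω
      unfold Y
      exact sum_nonneg fun i _ => sum_nonneg fun j _ => by split_ifs <;> norm_num
    refine (Pr_ge_le hw hYnn (by positivity)).trans ?_
    rw [div_le_iff₀ (by positivity)]
    refine hY.trans (le_of_eq ?_)
    have h5 : (1 - p₁) ^ (n - 1) = (1 - p₁) ^ (n - 2) * (1 - p₁) := by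
      rw [← pow_succ]
      congr 1
      omega
    rw [hx, h5]
    field_simp
  · refine (Pr_exists_le hw _ _).trans ?_
    have h3 : ∀ i ∈ (univ : Finset (Fin n)), Pr (wt3 p₁ p₂)
        (fun ω : Sym2 (Fin n) → Fin 3 => (cnt {0, 1} (star i) ω : ℝ) ≤ k) ≤
        Real.exp (u * k - ((n - 1 : ℕ) : ℝ) * (p₂ * (1 - Real.exp (-u)))) := by
      intro i _
      have h4 := Pr_cnt_le hw (wt3_sum p₁ p₂) {0, 1} (star i) (t := u) (r := (k : ℝ)) hu
      rwa [sum_zero_one, card_star] at h4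
    refine (sum_le_sum h3).trans (le_of_eq ?_)
    rw [sum_const, nsmul_eq_mul, card_univ, Fintype.card_fin]

end Pool.Agent.Q299.Pref
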