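import Mathlib
import Pool.Agent.Q299.Pref.Prob2

/-! # Asymptotics -/

set_option linter.unusedSectionVars false
set_option linter.unusedVariables false

namespace Pool.Agent.Q299.Pref

open Finset Pool.Agent.Q299.PW MeasureTheory Filter Topology

lemma sum_pow_le {r : ℝ} (h0 : 0 ≤ r) (h1 : r ≤ 1 / 2) (N : ℕ) :
    ∑ s ∈ range (N + 1), (if s = 0 then 0 else r ^ s) ≤ 2 * r := by
  have h2 : ∑ s ∈ range (N + 1), (if s = 0 then 0 else r ^ s) = r * ∑ s ∈ range N, r ^ s := by
    rw [sum_range_succ', mul_sum]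
    simp only [Nat.add_eq_zero_iff, one_ne_zero, and_false, if_false, if_true, add_zero]
    exact sum_congr rfl fun s _ => by rw [pow_succ]; ring
  rw [h2]
  have h3 : ∑ s ∈ range N, r ^ s ≤ 2 := by
    have h4 : (∑ s ∈ range N, r ^ s) * (1 - r) = 1 - r ^ N := by
      have := geom_sum_mul_neg r N
      linarith
    have h5 : 0 ≤ r ^ N := pow_nonneg h0 _
    have h6 : 0 ≤ ∑ s ∈ range N, r ^ s := sum_nonneg fun s _ => pow_nonneg h0 _
    nlinarith
  nlinarith

lemma B1_sum {n m : ℕ} (hn : 1 ≤ n) {t η b γ q : ℝ} (hη : 0 < η) (hγ : (1 + γ) ≤ (1 - η) * b)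
    (hγ2 : γ ≤ b / 2) (hb : 0 ≤ b) (ht : 0 ≤ t) (hq : (n : ℝ) * q = b * Real.log n) (hq0 : 0 ≤ q)
    (hr : Real.exp (t * m + Real.log 2 / η - γ * Real.log n) ≤ 1 / 2) :
    ∑ S ∈ (univ.filter fun S : Finset (Fin n) => S.Nonempty ∧ 2 * S.card ≤ n),
        Real.exp (t * (m * S.card) - ((S.card * (n - S.card) : ℕ) : ℝ) * q) ≤
      2 * Real.exp (t * m + Real.log 2 / η - γ * Real.log n) := by
  set r := Real.exp (t * m + Real.log 2 / η - γ * Real.log n) with hrdef
  have hn' : (1 : ℝ) ≤ n := by exact_mod_cast hn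
  have hn0 : (0 : ℝ) < n := by linarith
  have hL : 0 ≤ Real.log n := Real.log_nonneg hn'
  have hlog2 : 0 < Real.log 2 := Real.log_pos (by norm_num)
  set g : ℕ → ℝ := fun s => if 1 ≤ s ∧ 2 * s ≤ n then
    Real.exp (t * (m * s) - ((s * (n - s) : ℕ) : ℝ) * q) else 0 with hg
  have h1 : ∑ S ∈ (univ.filter fun S : Finset (Fin n) => S.Nonempty ∧ 2 * S.card ≤ n),
        Real.exp (t * (m * S.card) - ((S.card * (n - S.card) : ℕ) : ℝ) * q) =
      ∑ S ∈ (univ : Finset (Fin n)).powerset, g S.card := by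
    rw [powerset_univ, sum_filter]
    refine sum_congr rfl fun S _ => ?_
    rw [hg]
    simp only [← card_pos]
    rfl
  rw [h1, sum_powerset_apply_card, card_univ, Fintype.card_fin]
  refine le_trans ?_ (sum_pow_le (Real.exp_pos _).le hr n)
  refine sum_le_sum fun s hs => ?_
  rw [nsmul_eq_mul]
  by_cases hs0 : s = 0
  · rw [if_pos hs0, hs0, hg]
    simp
  rw [if_neg hs0]
  by_cases hs2 : 2 * s ≤ n
  · have hs1 : 1 ≤ s := by omega
    have hs' : (1 : ℝ) ≤ s := by exact_mod_cast hs1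
    have hs2' : 2 * (s : ℝ) ≤ n := by exact_mod_cast hs2
    have hgs : g s = Real.exp (t * (m * s) - ((s * (n - s) : ℕ) : ℝ) * q) := by
      rw [hg]
      simp only [if_pos (show 1 ≤ s ∧ 2 * s ≤ n from ⟨hs1, hs2⟩)]
    have hcast : ((s * (n - s) : ℕ) : ℝ) = s * ((n : ℝ) - s) := by
      rw [Nat.cast_mul, Nat.cast_sub (by omega)]
    rw [hgs, hcast, ← Real.exp_nat_mul]
    by_cases hcase : (s : ℝ) ≤ η * n
    · have hchoose : ((n.choose s : ℕ) : ℝ) ≤ Real.exp (s * Real.log n) := by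
        rw [Real.exp_nat_mul, Real.exp_log hn0]
        exact_mod_cast Nat.choose_le_pow n s
      calc ((n.choose s : ℕ) : ℝ) * Real.exp (t * (m * s) - s * ((n : ℝ) - s) * q)
          ≤ Real.exp (s * Real.log n) * Real.exp (t * (m * s) - s * ((n : ℝ) - s) * q) :=
            mul_le_mul_of_nonneg_right hchoose (Real.exp_pos _).le
        _ = Real.exp (s * Real.log n + (t * (m * s) - s * ((n : ℝ) - s) * q)) := by
            rw [Real.exp_add]
        _ ≤ _ := by
            apply Real.exp_le_exp.mpr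
            have h2 : (1 + γ) * Real.log n ≤ ((n : ℝ) - s) * q := by
              calc (1 + γ) * Real.log n ≤ (1 - η) * b * Real.log n :=
                    mul_le_mul_of_nonneg_right hγ hL
                _ = (1 - η) * (n * q) := by rw [hq]; ring
                _ = ((n : ℝ) - η * n) * q := by ring
                _ ≤ _ := mul_le_mul_of_nonneg_right (by linarith) hq0
            have h3 : 0 ≤ Real.log 2 / η := by positivity
            have h4 : (s : ℝ) * ((1 + γ) * Real.log n) ≤ s * (((n : ℝ) - s) * q) :=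
              mul_le_mul_of_nonneg_left h2 (by linarith)
            nlinarith
    · push Not at hcase
      have hchoose : ((n.choose s : ℕ) : ℝ) ≤ Real.exp (s * (Real.log 2 / η)) := by
        have h2 : ((n.choose s : ℕ) : ℝ) ≤ 2 ^ n := by exact_mod_cast Nat.choose_le_two_pow n s
        have h3 : (2 : ℝ) ^ n = Real.exp (n * Real.log 2) := by
          rw [Real.exp_nat_mul, Real.exp_log (by norm_num)]
        rw [h3] at h2
        refine h2.trans (Real.exp_le_exp.mpr ?_)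
        rw [← mul_div_assoc, le_div_iff₀ hη]
        nlinarith
      calc ((n.choose s : ℕ) : ℝ) * Real.exp (t * (m * s) - s * ((n : ℝ) - s) * q)
          ≤ Real.exp (s * (Real.log 2 / η)) * Real.exp (t * (m * s) - s * ((n : ℝ) - s) * q) :=
            mul_le_mul_of_nonneg_right hchoose (Real.exp_pos _).le
        _ = Real.exp (s * (Real.log 2 / η) + (t * (m * s) - s * ((n : ℝ) - s) * q)) := by
            rw [Real.exp_add]
        _ ≤ _ := by
            apply Real.exp_le_exp.mpr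
            have h2 : γ * Real.log n ≤ ((n : ℝ) - s) * q := by
              calc γ * Real.log n ≤ b / 2 * Real.log n :=
                    mul_le_mul_of_nonneg_right hγ2 hL
                _ = (n * q) / 2 := by rw [hq]; ring
                _ = (n : ℝ) / 2 * q := by ring
                _ ≤ _ := mul_le_mul_of_nonneg_right (by linarith) hq0
            have h4 : (s : ℝ) * (γ * Real.log n) ≤ s * (((n : ℝ) - s) * q) :=
              mul_le_mul_of_nonneg_left h2 (by linarith)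
            nlinarith
  · have hgs : g s = 0 := by
      rw [hg]
      simp only
      rw [if_neg]
      rintro ⟨_, h⟩
      exact hs2 h
    rw [hgs, mul_zero]
    exact pow_nonneg (Real.exp_pos _).le _

variable (μ : Measure ℝ) [IsProbabilityMeasure μ] [NullSingletonClass μ]

/-- The law of the costs. -/
noncomputable def P (n : ℕ) : Measure (Sym2 (Fin n) → ℝ) := Measure.pi fun _ => μ

instance (n : ℕ) : IsProbabilityMeasure (P μ n) := by unfold P; infer_instance

lemma P_levels {n : ℕ} {p₁ p₂ t₁ t₂ : ℝ}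
    (h : (fun a => μ.real (lev t₁ t₂ ⁻¹' {a})) = wt3 p₁ p₂) (A : (Sym2 (Fin n) → Fin 3) → Prop) :
    P μ n {C | A (lv t₁ t₂ C)} = ENNReal.ofReal (Pr (wt3 p₁ p₂) A) := by
  rw [← h]
  exact pi_levels μ (lev t₁ t₂) (measurable_lev t₁ t₂) A

lemma P_le {n : ℕ} {p₁ p₂ t₁ t₂ : ℝ}
    (h : (fun a => μ.real (lev t₁ t₂ ⁻¹' {a})) = wt3 p₁ p₂) (A : (Sym2 (Fin n) → Fin 3) → Prop)
    (B : (Sym2 (Fin n) → ℝ) → Prop) (hB : ∀ C, B C → A (lv t₁ t₂ C)) :
    P μ n {C | B C} ≤ ENNReal.ofReal (Pr (wt3 p₁ p₂) A) := by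
  rw [← P_levels μ h A]
  exact measure_mono fun C hC => hB C hC

/-- Upper part, finite form. -/
lemma upper_bound {n m k : ℕ} (hn : 0 < n) (hmk : m ≤ k) {p₁ p₂ t u : ℝ} (h0 : 0 < p₁)
    (h1 : p₁ < p₂) (h2 : p₂ < 1) (ht : 0 ≤ t) (hu : 0 ≤ u) :
    P μ n {C | ¬ (prefGraph k C).Connected} ≤ ENNReal.ofReal
      (∑ S ∈ (univ.filter fun S : Finset (Fin n) => S.Nonempty ∧ 2 * S.card ≤ n),
        Real.exp (t * (m * S.card) - ((S.card * (n - S.card) : ℕ) : ℝ) *
          (p₁ * (1 - Real.exp (-t)))) +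
      n * (n * p₁ * Real.exp (n * (p₁ * (Real.exp u - 1)) - u * ((k : ℝ) - m))) ^ m) := by
  obtain ⟨t₁, t₂, h12, hlev⟩ := exists_levels μ h0 h1 h2
  have hw := wt3_nonneg h0.le h1.le h2.le
  refine (P_le μ hlev (fun ω : Sym2 (Fin n) → Fin 3 =>
        (∃ S ∈ (univ.filter fun S : Finset (Fin n) => S.Nonempty ∧ 2 * S.card ≤ n),
        cnt {0} (cut S) ω ≤ m * S.card) ∨ (∃ v ∈ (univ : Finset (Fin n)),
        m ≤ ((univ.erase v).filter fun u => ω s(v, u) = 0 ∧ k ≤ deg {0} ω u).card))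
        (fun C => ¬ (prefGraph k C).Connected) ?_).trans ?_
  · intro C hC
    by_contra hcon
    push Not at hcon
    apply hC
    refine connected_of hn C t₁ t₂ hmk (fun S hS hS2 => ?_) (fun v => hcon.2 v (mem_univ _))
    exact hcon.1 S (mem_filter.mpr ⟨mem_univ _, hS, hS2⟩)
  apply ENNReal.ofReal_le_ofReal
  exact (Pr_or_le hw _ _).trans (add_le_add (prob_B1 h0.le h1.le h2.le m ht)
    (prob_B2 h0.le h1.le h2.le m k hu))

/-- Lower part, finite form. -/
lemma lower_bound {n k : ℕ} (hn : 2 ≤ n) {p₁ p₂ t u : ℝ} (h0 : 0 < p₁)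
    (h1 : p₁ < p₂) (h2 : p₂ < 1) (ht : 0 ≤ t) (hu : 0 ≤ u) :
    P μ n {C | (prefGraph k C).Connected} ≤ ENNReal.ofReal
      (4 * (1 / (n * (1 - p₁) ^ (n - 1)) + p₁ / (1 - p₁)) +
      2 * n * (p₂ - p₁) / (1 - p₁) *
        Real.exp (t * k - ((n - 2 : ℕ) : ℝ) * (p₁ * (1 - Real.exp (-t)))) +
      n * Real.exp (u * k - ((n - 1 : ℕ) : ℝ) * (p₂ * (1 - Real.exp (-u))))) := by
  obtain ⟨t₁, t₂, h12, hlev⟩ := exists_levels μ h0 h1 h2
  refine (P_le μ hlev (fun ω : Sym2 (Fin n) → Fin 3 => ¬ Good k ω)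
        (fun C => (prefGraph k C).Connected) ?_).trans ?_
  · rintro C hC ⟨i, hi, hd, hj⟩
    exact not_connected_of hn C h12 i hi hd hj hC
  exact ENNReal.ofReal_le_ofReal (prob_not_good h0 h1 h2 hn k ht hu)

end Pool.Agent.Q299.Pref
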